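import Pool.Agent.H7.Qup.Hom

/-!
# Qup Bd: the boundary and dominant regular maps

`exists_compat`: a dominant regular map `p : U' → U` gives an embedding `e` of the function field of `U` in the function field of `U'`.  `onBd_over`: if the
prime divisor `E` over `U'` lies over the prime divisor `D` over `U` and `D` is centred on the boundary of `U`, then `E` is centred on the boundary of `U'`.
`logGT_up`: if `U` is of log general type, and `U'` has the same dimension, then `U'` is of log general type.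
-/

set_option autoImplicit false

open MvPolynomial

noncomputable section

namespace Pool.Agent.H7.Qup

open Pool.Agent.H17 (PN VanishesAt vanishesAt_mk_iff)
open Pool.Agent.H17GT (coordFun)
open Pool.Agent.H17LG.Variety (FunField ratio IsLogGeneralType)
open Pool.Agent.H23.Fano (PrimeDivisorOver)
open Pool.Agent.H62.FC (Homog)
open Pool.Agent.H62.SA (locVar OnBd)
open Pool.Agent.H17R (gen gen_eq_zero_iff ratio_self coordFun_ne_zero_iff gen_change exists_center ord_gen_nonneg ratio_ne_zero_iff)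
open Pool.Agent.H7.Bir (vals rmap mem_of_open)

variable {N M : ℕ} {P : Ideal (MvPolynomial (Fin (N + 1)) ℂ)} {P' : Ideal (MvPolynomial (Fin (M + 1)) ℂ)} {s s' : ℕ}
  {G : Fin s → MvPolynomial (Fin (N + 1)) ℂ} {G' : Fin s' → MvPolynomial (Fin (M + 1)) ℂ} {p : PN M → PN N}

theorem ratio_change' [P.IsPrime] {i i₀ i₁ : Fin (N + 1)} (h₁ : coordFun P i₁ ≠ 0) :
    ratio P i i₀ = ratio P i₁ i₀ * ratio P i i₁ := by
  apply Subtype.ext
  change coordFun P i / coordFun P i₀ =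
    coordFun P i₁ / coordFun P i₀ * (coordFun P i / coordFun P i₁)
  rw [div_mul_div_comm, mul_comm (coordFun P i₁) (coordFun P i), mul_div_mul_right _ _ h₁]

theorem exists_coord {y : PN M} (hy : y ∈ locVar P' G') : ∃ j, (X j : MvPolynomial (Fin (M + 1)) ℂ) ∉ P' := by
  by_contra hcon
  push Not at hcon
  have h1 : ∀ i, y.rep i = 0 := by
    intro i
    have h2 := hy.1 _ (hcon i) 1 (isHomogeneous_X ℂ i)
    unfold VanishesAt at h2
    rwa [eval_X] at h2
  exact y.rep_nonzero (funext h1)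

/-- The embedding of the function fields corresponds to the map `p`. -/
def Compat (P : Ideal (MvPolynomial (Fin (N + 1)) ℂ)) [P.IsPrime] (P' : Ideal (MvPolynomial (Fin (M + 1)) ℂ)) [P'.IsPrime]
    (G' : Fin s' → MvPolynomial (Fin (M + 1)) ℂ) (p : PN M → PN N) (e : FunField P →ₐ[ℂ] FunField P') : Prop :=
  ∀ (D : ℕ) (γ : Fin (N + 1) → MvPolynomial (Fin (M + 1)) ℂ), Rep P' G' p D γ → (∃ y ∈ locVar P' G', vals γ y.rep ≠ 0) →
    ∀ j', X j' ∉ P' → ∀ i₀, X i₀ ∉ P → ∀ i, e (ratio P i i₀) * gen P' j' (γ i₀) = gen P' j' (γ i)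

theorem exists_compat [P.IsPrime] [P'.IsPrime] (hp : IsDominantMap P P' G G' p) (hP' : Homog P')
    (hG' : ∀ m, ∃ n, (G' m).IsHomogeneous n) (hne : (locVar P' G').Nonempty) :
    ∃ e : FunField P →ₐ[ℂ] FunField P', Compat P P' G' p e := by
  obtain ⟨y₀, hy₀⟩ := hne
  have hne : (locVar P' G').Nonempty := ⟨y₀, hy₀⟩
  obtain ⟨j₁, hj₁⟩ := exists_coord hy₀
  obtain ⟨i₁, hi₁⟩ := exists_coord (hp.maps y₀ hy₀)
  obtain ⟨D₁, γ₁, hγ₁, hv₁⟩ := hp.exists_rep hy₀
  have hcj : coordFun P' j₁ ≠ 0 := coordFun_ne_zero_iff.2 hj₁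
  have hci : coordFun P i₁ ≠ 0 := coordFun_ne_zero_iff.2 hi₁
  have hmaps := hp.maps_iff hP' hG' hγ₁ ⟨y₀, hy₀, hv₁⟩
  have hγi : ∀ i, X i ∉ P → γ₁ i ∉ P' := by
    intro i hi h
    apply hi
    rw [← hmaps 1 _ (isHomogeneous_X ℂ i), aeval_X]
    exact h
  have hc : gen P' j₁ (γ₁ i₁) ≠ 0 := fun h0 => hγi i₁ hi₁ ((gen_eq_zero_iff hcj (hγ₁.hom i₁)).1 h0)
  set x : Fin (N + 1) → FunField P' := fun i => gen P' j₁ (γ₁ i) / gen P' j₁ (γ₁ i₁) with hx
  have hx1 : x i₁ = 1 := div_self hc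
  have hker : ∀ (n : ℕ) (R : MvPolynomial (Fin (N + 1)) ℂ), R.IsHomogeneous n → (aeval x R = 0 ↔ R ∈ P) := by
    intro n R hR
    rw [← hmaps n R hR, ← gen_eq_zero_iff hcj (aeval_homog hγ₁.hom hR)]
    have h1 : gen P' j₁ (aeval γ₁ R) = gen P' j₁ (γ₁ i₁) ^ n * aeval x R := by
      unfold gen
      rw [Pool.Agent.H7.Bir.aeval_comp]
      exact Pool.Agent.H7.Bir.aeval_div hR hc _
    rw [h1, mul_eq_zero]
    exact ⟨Or.inr, fun h => h.resolve_left (pow_ne_zero _ hc)⟩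
  obtain ⟨e, he⟩ := exists_hom_val hci hx1 hker
  refine ⟨e, ?_⟩
  intro D γ hγ hγne j' hj' i₀ hi₀ i
  have hcj' : coordFun P' j' ≠ 0 := coordFun_ne_zero_iff.2 hj'
  have hci' : coordFun P i₀ ≠ 0 := coordFun_ne_zero_iff.2 hi₀
  -- change of the tuple
  have hrel : ∀ k l, gen P' j' (γ₁ k) * gen P' j' (γ l) = gen P' j' (γ₁ l) * gen P' j' (γ k) := by
    intro k l
    have h1 : γ₁ k * γ l - γ₁ l * γ k ∈ P' := by
      have hhom : (γ₁ k * γ l - γ₁ l * γ k).IsHomogeneous (D₁ + D) := ((hγ₁.hom k).mul (hγ.hom l)).sub ((hγ₁.hom l).mul (hγ.hom k))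
      refine mem_of_open hP' hG' hne hhom fun y hy => ?_
      unfold VanishesAt
      rw [map_sub, map_mul, map_mul, hγ₁.prop hγ hy k l, sub_self]
    have hhom : (γ₁ k * γ l - γ₁ l * γ k).IsHomogeneous (D₁ + D) := ((hγ₁.hom k).mul (hγ.hom l)).sub ((hγ₁.hom l).mul (hγ.hom k))
    have h2 := (gen_eq_zero_iff hcj' hhom).2 h1
    unfold gen at h2 ⊢
    rw [map_sub, map_mul, map_mul] at h2
    exact sub_eq_zero.1 h2
  -- change of the coordinate
  have hch : ∀ k, gen P' j₁ (γ₁ k) = ratio P' j' j₁ ^ D₁ * gen P' j' (γ₁ k) := fun k => gen_change hcj' (hγ₁.hom k)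
  have hr0 : ratio P' j' j₁ ≠ 0 := (ratio_ne_zero_iff hcj).2 hcj'
  have hg0 : gen P' j' (γ₁ i₀) ≠ 0 := fun h0 => hγi i₀ hi₀ ((gen_eq_zero_iff hcj' (hγ₁.hom i₀)).1 h0)
  have h3 : e (ratio P i i₁) = e (ratio P i₀ i₁) * e (ratio P i i₀) := by
    rw [← map_mul, ← ratio_change' hci']
  have h4 : gen P' j₁ (γ₁ i) = gen P' j₁ (γ₁ i₀) * e (ratio P i i₀) := by
    rw [he, he] at h3
    change gen P' j₁ (γ₁ i) / gen P' j₁ (γ₁ i₁) = gen P' j₁ (γ₁ i₀) / gen P' j₁ (γ₁ i₁) * e (ratio P i i₀) at h3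
    rw [div_mul_eq_mul_div, div_left_inj' hc] at h3
    exact h3
  have h5 : gen P' j' (γ₁ i) = gen P' j' (γ₁ i₀) * e (ratio P i i₀) := by
    rw [hch, hch, mul_assoc] at h4
    exact mul_left_cancel₀ (pow_ne_zero _ hr0) h4
  have h6 := hrel i i₀
  rw [h5, mul_assoc] at h6
  exact mul_left_cancel₀ hg0 h6

/-- The polynomials which vanish at the centre of `E`. -/
def ctr [P.IsPrime] {w : ℕ} (E : PrimeDivisorOver (FunField P) w) {j : Fin (N + 1)} (h : ∀ i, 0 ≤ E.ord (ratio P i j)) :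
    Ideal (MvPolynomial (Fin (N + 1)) ℂ) where
  carrier := {R | 0 < E.ord (gen P j R)}
  add_mem' := by
    intro a b ha hb
    change 0 < E.ord (aeval _ (a + b))
    rw [map_add]
    exact (lt_min ha hb).trans_le (E.ord.map_add _ _)
  zero_mem' := by
    change 0 < E.ord (aeval _ 0)
    rw [map_zero, E.ord.map_zero]
    exact WithTop.coe_lt_top 0
  smul_mem' := by
    intro c x hx
    change 0 < E.ord (aeval _ (c * x))
    rw [map_mul, E.ord.map_mul]
    exact lt_of_lt_of_le hx (le_add_of_nonneg_left (ord_gen_nonneg E h c))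

theorem mem_ctr [P.IsPrime] {w : ℕ} {E : PrimeDivisorOver (FunField P) w} {j : Fin (N + 1)} {h : ∀ i, 0 ≤ E.ord (ratio P i j)}
    {R : MvPolynomial (Fin (N + 1)) ℂ} : R ∈ ctr E h ↔ 0 < E.ord (gen P j R) := Iff.rfl

theorem notMem_ctr [P.IsPrime] {w : ℕ} {E : PrimeDivisorOver (FunField P) w} {j : Fin (N + 1)} {h : ∀ i, 0 ≤ E.ord (ratio P i j)}
    {R : MvPolynomial (Fin (N + 1)) ℂ} : R ∉ ctr E h ↔ E.ord (gen P j R) = 0 := by
  rw [mem_ctr, not_lt]
  exact ⟨fun h1 => le_antisymm h1 (ord_gen_nonneg E h R), fun h1 => h1.le⟩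

instance ctr_isPrime [P.IsPrime] {w : ℕ} (E : PrimeDivisorOver (FunField P) w) {j : Fin (N + 1)} (h : ∀ i, 0 ≤ E.ord (ratio P i j)) :
    (ctr E h).IsPrime where
  ne_top' := by
    rw [Ideal.ne_top_iff_one, notMem_ctr]
    unfold gen
    rw [map_one, E.ord.map_one]
  mem_or_mem' := by
    intro a b hab
    by_contra hcon
    rw [not_or, notMem_ctr, notMem_ctr] at hcon
    rw [mem_ctr] at hab
    unfold gen at hab hcon
    rw [map_mul, E.ord.map_mul, hcon.1, hcon.2, add_zero] at hab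
    exact lt_irrefl _ hab

/-- Points of the centre. -/
theorem exists_ctr_point [P.IsPrime] {w : ℕ} (E : PrimeDivisorOver (FunField P) w) {j : Fin (N + 1)} (hj : coordFun P j ≠ 0)
    (h : ∀ i, 0 ≤ E.ord (ratio P i j)) {R : MvPolynomial (Fin (N + 1)) ℂ} (hR : R ∉ ctr E h) :
    ∃ v : Fin (N + 1) → ℂ, v ≠ 0 ∧ (∀ Q ∈ ctr E h, eval v Q = 0) ∧ eval v R ≠ 0 := by
  rw [← MvPolynomial.IsPrime.vanishingIdeal_zeroLocus (K := ℂ) (ctr E h), MvPolynomial.mem_vanishingIdeal_iff] at hR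
  push Not at hR
  obtain ⟨v, hv, hvR⟩ := hR
  rw [MvPolynomial.aeval_eq_eval] at hvR
  have hv' : ∀ Q ∈ ctr E h, eval v Q = 0 := fun Q hQ => by
    have h1 := hv Q hQ
    rwa [MvPolynomial.aeval_eq_eval] at h1
  refine ⟨v, ?_, hv', hvR⟩
  rintro rfl
  have h1 : (X j - 1 : MvPolynomial (Fin (N + 1)) ℂ) ∈ ctr E h := by
    rw [mem_ctr]
    unfold gen
    rw [map_sub, aeval_X, ratio_self hj, map_one, sub_self, E.ord.map_zero]
    exact WithTop.coe_lt_top 0
  have h2 := hv' _ h1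
  rw [map_sub, eval_X, map_one] at h2
  norm_num at h2

theorem le_ctr [P.IsPrime] {w : ℕ} {E : PrimeDivisorOver (FunField P) w} {j : Fin (N + 1)} (hj : coordFun P j ≠ 0)
    {h : ∀ i, 0 ≤ E.ord (ratio P i j)} {n : ℕ} {R : MvPolynomial (Fin (N + 1)) ℂ} (hR : R.IsHomogeneous n) (hRP : R ∈ P) : R ∈ ctr E h := by
  rw [mem_ctr, (gen_eq_zero_iff hj hR).2 hRP, E.ord.map_zero]
  exact WithTop.coe_lt_top 0

/-- **The boundary is mapped to the boundary.** -/
theorem onBd_over [P.IsPrime] [P'.IsPrime] (hp : IsDominantMap P P' G G' p) (hP' : Homog P')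
    (hG : ∀ m, ∃ n, (G m).IsHomogeneous n) (hG' : ∀ m, ∃ n, (G' m).IsHomogeneous n)
    {e : FunField P →ₐ[ℂ] FunField P'} (he : Compat P P' G' p e) {k : ℕ} {D : PrimeDivisorOver (FunField P) k}
    {E : PrimeDivisorOver (FunField P') k} {r : ℕ} (hr : 0 < r)
    (hDE : ∀ f : FunField P, f ≠ 0 → ∃ n : ℤ, D.ord f = n ∧ E.ord (e f) = ((r * n : ℤ) : WithTop ℤ)) (hne : (locVar P' G').Nonempty)
    (hD : OnBd P G D) : OnBd P' G' E := by
  obtain ⟨y₀, hy₀⟩ := hne
  obtain ⟨j₁, hj₁⟩ := exists_coord hy₀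
  obtain ⟨j', hj', hE⟩ := exists_center E (coordFun_ne_zero_iff.2 hj₁)
  refine ⟨j', hj', hE, fun m => ?_⟩
  by_contra hcon
  have h1 : G' m ∉ ctr E hE := hcon
  obtain ⟨v, hv0, hv, hvG⟩ := exists_ctr_point E hj' hE h1
  set y : PN M := Projectivization.mk ℂ v hv0 with hy
  have hyU : y ∈ locVar P' G' := by
    refine ⟨fun Q hQ n hn => ?_, m, ?_⟩
    · rw [hy, vanishesAt_mk_iff hn]
      exact hv _ (le_ctr hj' hn hQ)
    · obtain ⟨d, hd⟩ := hG' m
      rw [hy, vanishesAt_mk_iff hd]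
      exact hvG
  obtain ⟨Dγ, γ, hγ, hvγ⟩ := hp.exists_rep hyU
  have hval : ∀ {n : ℕ} {R : MvPolynomial (Fin (M + 1)) ℂ}, R.IsHomogeneous n → eval y.rep R ≠ 0 → E.ord (gen P' j' R) = 0 := by
    intro n R hR hyR
    rw [← notMem_ctr (h := hE)]
    intro h2
    apply hyR
    have h3 := (vanishesAt_mk_iff hR v hv0).2 (hv R h2)
    exact h3
  obtain ⟨i₁, hi₁⟩ : ∃ i, eval y.rep (γ i) ≠ 0 := by
    by_contra hcon
    push Not at hcon
    exact hvγ (funext hcon)
  have hγi : E.ord (gen P' j' (γ i₁)) = 0 := hval (hγ.hom i₁) hi₁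
  have hmaps := hp.maps_iff hP' hG' hγ ⟨y, hyU, hvγ⟩
  have hXi : X i₁ ∉ P := by
    intro h2
    rw [← hmaps 1 _ (isHomogeneous_X ℂ i₁), aeval_X] at h2
    exact hi₁ (hyU.1 _ h2 _ (hγ.hom i₁))
  have hci : coordFun P i₁ ≠ 0 := coordFun_ne_zero_iff.2 hXi
  have hXj' : X j' ∉ P' := coordFun_ne_zero_iff.1 hj'
  have hcomp := he Dγ γ hγ ⟨y, hyU, hvγ⟩ j' hXj' i₁ hXi
  have hgne : gen P' j' (γ i₁) ≠ 0 := by
    intro h2
    rw [h2, E.ord.map_zero] at hγi
    exact WithTop.top_ne_zero hγi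
  -- from `E` to `D`
  have hnn : ∀ f : FunField P, 0 ≤ E.ord (e f) → 0 ≤ D.ord f := by
    intro f hf
    by_cases hf0 : f = 0
    · rw [hf0, D.ord.map_zero]
      exact le_top
    · obtain ⟨n, hn, hn'⟩ := hDE f hf0
      rw [hn'] at hf
      rw [hn]
      have h2 : (0 : ℤ) ≤ r * n := by exact_mod_cast hf
      have h3 : (0 : ℤ) ≤ n := nonneg_of_mul_nonneg_right h2 (by exact_mod_cast hr)
      exact_mod_cast h3
  have hzz : ∀ f : FunField P, E.ord (e f) = 0 → D.ord f = 0 := by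
    intro f hf
    by_cases hf0 : f = 0
    · rw [hf0, map_zero, E.ord.map_zero] at hf
      exact absurd hf WithTop.top_ne_zero
    · obtain ⟨n, hn, hn'⟩ := hDE f hf0
      rw [hn'] at hf
      rw [hn]
      have h2 : (r : ℤ) * n = 0 := by exact_mod_cast hf
      have h3 : n = 0 := by
        rcases mul_eq_zero.1 h2 with h4 | h4
        · omega
        · exact h4
      rw [h3]
      rfl
  have hD1 : ∀ i, 0 ≤ D.ord (ratio P i i₁) := by
    intro i
    apply hnn
    have h2 := congrArg E.ord (hcomp i)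
    rw [E.ord.map_mul, hγi, add_zero] at h2
    rw [h2]
    exact ord_gen_nonneg E hE _
  -- a form `G m` which does not vanish at the image
  obtain ⟨-, m₁, hm₁⟩ := hp.maps y hyU
  obtain ⟨d, hd⟩ := hG m₁
  have h5 : E.ord (gen P' j' (aeval γ (G m₁))) = 0 := by
    refine hval (aeval_homog hγ.hom hd) fun h6 => hm₁ ?_
    rw [hγ.vanishes_iff hyU hvγ hd]
    exact h6
  have h6 : e (gen P i₁ (G m₁)) * gen P' j' (γ i₁) ^ d = gen P' j' (aeval γ (G m₁)) := by
    have h7 : ∀ i, e (ratio P i i₁) = gen P' j' (γ i) / gen P' j' (γ i₁) := fun i => by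
      rw [eq_div_iff hgne]
      exact hcomp i
    have h8 : e (gen P i₁ (G m₁)) = aeval (fun i => gen P' j' (γ i) / gen P' j' (γ i₁)) (G m₁) := by
      unfold gen
      have h9 : e (aeval (fun i => ratio P i i₁) (G m₁)) = aeval (fun i => e (ratio P i i₁)) (G m₁) := by
        rw [← AlgHom.comp_apply, MvPolynomial.comp_aeval]
      rw [h9]
      congr 2
      funext i
      exact h7 i
    have h10 : gen P' j' (aeval γ (G m₁)) = gen P' j' (γ i₁) ^ d * aeval (fun i => gen P' j' (γ i) / gen P' j' (γ i₁)) (G m₁) := by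
      unfold gen
      rw [Pool.Agent.H7.Bir.aeval_comp]
      exact Pool.Agent.H7.Bir.aeval_div hd hgne _
    rw [h8, h10, mul_comm]
  have h7 : D.ord (gen P i₁ (G m₁)) = 0 := by
    apply hzz
    have h8 := congrArg E.ord h6
    rw [E.ord.map_mul, E.ord.map_pow, hγi, smul_zero, add_zero, h5] at h8
    exact h8
  -- compare with the coordinate `j`
  obtain ⟨j, hj, hDj, hDG⟩ := hD
  have h8 : D.ord (ratio P i₁ j) = 0 := by
    have h9 : ratio P j j = ratio P i₁ j * ratio P j i₁ := ratio_change' hci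
    have h10 := congrArg D.ord h9
    rw [ratio_self hj, D.ord.map_one, D.ord.map_mul] at h10
    refine le_antisymm ?_ (hDj i₁)
    rw [h10]
    exact le_add_of_nonneg_right (hD1 j)
  have h9 := hDG m₁
  have h10 : gen P j (G m₁) = ratio P i₁ j ^ d * gen P i₁ (G m₁) := gen_change hci hd
  change 0 < D.ord (gen P j (G m₁)) at h9
  rw [h10, D.ord.map_mul, D.ord.map_pow, h8, smul_zero, zero_add, h7] at h9
  exact lt_irrefl _ h9

/-- **Log general type goes up along dominant regular maps.** -/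
theorem logGT_up [P.IsPrime] [P'.IsPrime] (hp : IsDominantMap P P' G G' p) (hP' : Homog P')
    (hG : ∀ m, ∃ n, (G m).IsHomogeneous n) (hG' : ∀ m, ∃ n, (G' m).IsHomogeneous n) (hne : (locVar P' G').Nonempty) {k : ℕ}
    (hz : ∃ z : Fin k → FunField P, IsTranscendenceBasis ℂ z) (hz' : ∃ z : Fin k → FunField P', IsTranscendenceBasis ℂ z)
    (h : IsLogGeneralType (OnBd P G (k := k))) : IsLogGeneralType (OnBd P' G' (k := k)) := by
  obtain ⟨e, he⟩ := exists_compat hp hP' hG' hne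
  let _ : Algebra (FunField P) (FunField P') := e.toRingHom.toAlgebra
  have _ : IsScalarTower ℂ (FunField P) (FunField P') := IsScalarTower.of_algebraMap_eq fun c => (e.commutes c).symm
  have _ : Algebra.IsAlgebraic (FunField P) (FunField P') := by
    obtain ⟨z, hz⟩ := hz
    obtain ⟨z', hz'⟩ := hz'
    have h1 := trdeg_add_eq ℂ (FunField P) (A := FunField P')
    rw [← hz.cardinalMk_eq_trdeg, ← hz'.cardinalMk_eq_trdeg] at h1
    rw [← trdeg_eq_zero_iff]
    have h2 : Cardinal.mk (Fin k) < Cardinal.aleph0 := Cardinal.mk_lt_aleph0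
    have h3 : Cardinal.mk (Fin k) + Algebra.trdeg (FunField P) (FunField P') = Cardinal.mk (Fin k) + 0 := by rw [h1, add_zero]
    exact Cardinal.eq_of_add_eq_add_left h3 h2
  exact isLGT_of_algebraic hz (fun D E r hDE hD => onBd_over hp hP' hG hG' he hDE.1 hDE.2 hne hD) h

end Pool.Agent.H7.Qup
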