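import Pool.Agent.H7.Bir.Open

/-!
# Qup Defs: dominant regular maps of quasi-projective varieties
-/

set_option autoImplicit false

open Topology Filter MvPolynomial

noncomputable section

namespace Pool.Agent.H7.Qup

open Pool.Agent.H17 (PN VanishesAt)
open Pool.Agent.H62.FC (Homog)
open Pool.Agent.H62.SA (locVar)
open Pool.Agent.H7.Bir (vals rmap vals_smul mem_of_open)

variable {N M : ℕ}

/-- `p` is a dominant regular map from the quasi-projective variety `U' = locVar P' G'` to the quasi-projective variety `U = locVar P G`. -/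
structure IsDominantMap (P : Ideal (MvPolynomial (Fin (N + 1)) ℂ)) (P' : Ideal (MvPolynomial (Fin (M + 1)) ℂ)) {s s' : ℕ}
    (G : Fin s → MvPolynomial (Fin (N + 1)) ℂ) (G' : Fin s' → MvPolynomial (Fin (M + 1)) ℂ) (p : PN M → PN N) : Prop where
  /-- `p` maps `U'` into `U` -/
  maps : ∀ y ∈ locVar P' G', p y ∈ locVar P G
  /-- near every point of `U'` the map `p` is given by forms of the same degree -/
  regular : ∀ y ∈ locVar P' G', ∃ (D : ℕ) (γ : Fin (N + 1) → MvPolynomial (Fin (M + 1)) ℂ), (∀ i, (γ i).IsHomogeneous D) ∧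
    vals γ y.rep ≠ 0 ∧ ∀ y' ∈ locVar P' G', vals γ y'.rep ≠ 0 → p y' = rmap γ y'
  /-- the image is Zariski dense -/
  dense : ∀ (Q : MvPolynomial (Fin (N + 1)) ℂ) (n : ℕ), Q.IsHomogeneous n → (∀ y ∈ locVar P' G', VanishesAt Q (p y)) → Q ∈ P

variable {P : Ideal (MvPolynomial (Fin (N + 1)) ℂ)} {P' : Ideal (MvPolynomial (Fin (M + 1)) ℂ)} {s s' : ℕ}
  {G : Fin s → MvPolynomial (Fin (N + 1)) ℂ} {G' : Fin s' → MvPolynomial (Fin (M + 1)) ℂ} {p : PN M → PN N}

/-- The forms `γ i` represent `p` on `U'`. -/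
structure Rep (P' : Ideal (MvPolynomial (Fin (M + 1)) ℂ)) (G' : Fin s' → MvPolynomial (Fin (M + 1)) ℂ) (p : PN M → PN N) (D : ℕ)
    (γ : Fin (N + 1) → MvPolynomial (Fin (M + 1)) ℂ) : Prop where
  hom : ∀ i, (γ i).IsHomogeneous D
  rep : ∀ y ∈ locVar P' G', vals γ y.rep ≠ 0 → p y = rmap γ y

theorem IsDominantMap.exists_rep (hp : IsDominantMap P P' G G' p) {y : PN M} (hy : y ∈ locVar P' G') :
    ∃ (D : ℕ) (γ : Fin (N + 1) → MvPolynomial (Fin (M + 1)) ℂ), Rep P' G' p D γ ∧ vals γ y.rep ≠ 0 := by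
  obtain ⟨D, γ, h1, h2, h3⟩ := hp.regular y hy
  exact ⟨D, γ, ⟨h1, h3⟩, h2⟩

theorem aeval_homog {γ : Fin (N + 1) → MvPolynomial (Fin (M + 1)) ℂ} {D : ℕ} (hγ : ∀ i, (γ i).IsHomogeneous D) {n : ℕ}
    {Q : MvPolynomial (Fin (N + 1)) ℂ} (hQ : Q.IsHomogeneous n) : (aeval γ Q).IsHomogeneous (D * n) :=
  hQ.aeval _ hγ

theorem eval_smul {n : ℕ} {Q : MvPolynomial (Fin (N + 1)) ℂ} (hQ : Q.IsHomogeneous n) (c : ℂ) (x : Fin (N + 1) → ℂ) :
    eval (c • x) Q = c ^ n * eval x Q :=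
  Pool.Agent.H17BP.eval_smul_form hQ c x

/-- Two systems of forms which represent `p` are proportional at every point. -/
theorem Rep.prop {D D' : ℕ} {γ γ' : Fin (N + 1) → MvPolynomial (Fin (M + 1)) ℂ} (h : Rep P' G' p D γ) (h' : Rep P' G' p D' γ')
    {y : PN M} (hy : y ∈ locVar P' G') (i j : Fin (N + 1)) :
    eval y.rep (γ i) * eval y.rep (γ' j) = eval y.rep (γ j) * eval y.rep (γ' i) := by
  by_cases h1 : vals γ y.rep = 0
  · have h2 : ∀ i, eval y.rep (γ i) = 0 := fun i => congrFun h1 i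
    rw [h2 i, h2 j]
    ring
  by_cases h3 : vals γ' y.rep = 0
  · have h2 : ∀ i, eval y.rep (γ' i) = 0 := fun i => congrFun h3 i
    rw [h2 i, h2 j]
    ring
  have h4 : rmap γ y = rmap γ' y := by
    rw [← h.rep y hy h1, ← h'.rep y hy h3]
  unfold Pool.Agent.H7.Bir.rmap at h4
  rw [dif_pos h1, dif_pos h3, Projectivization.mk_eq_mk_iff'] at h4
  obtain ⟨a, ha⟩ := h4
  have h5 : ∀ i, eval y.rep (γ i) = a * eval y.rep (γ' i) := fun i => (congrFun ha i).symm
  rw [h5 i, h5 j]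
  ring

/-- The value of a form at the image of a point. -/
theorem Rep.vanishes_iff {D : ℕ} {γ : Fin (N + 1) → MvPolynomial (Fin (M + 1)) ℂ} (h : Rep P' G' p D γ) {y : PN M} (hy : y ∈ locVar P' G')
    (hv : vals γ y.rep ≠ 0) {n : ℕ} {Q : MvPolynomial (Fin (N + 1)) ℂ} (hQ : Q.IsHomogeneous n) :
    VanishesAt Q (p y) ↔ eval y.rep (aeval γ Q) = 0 := by
  rw [h.rep y hy hv, Pool.Agent.H7.Bir.vanishesAt_rmap hv hQ]
  rfl

/-- The forms which represent `p` define a dominant rational map. -/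
theorem IsDominantMap.maps_iff [P.IsPrime] [P'.IsPrime] (hp : IsDominantMap P P' G G' p) (hP' : Homog P')
    (hG' : ∀ m, ∃ n, (G' m).IsHomogeneous n) {D : ℕ} {γ : Fin (N + 1) → MvPolynomial (Fin (M + 1)) ℂ} (hγ : Rep P' G' p D γ)
    (hne : ∃ y ∈ locVar P' G', vals γ y.rep ≠ 0) (n : ℕ) (Q : MvPolynomial (Fin (N + 1)) ℂ) (hQ : Q.IsHomogeneous n) :
    aeval γ Q ∈ P' ↔ Q ∈ P := by
  obtain ⟨y₀, hy₀, hne⟩ := hne
  have hnon : (locVar P' G').Nonempty := ⟨y₀, hy₀⟩
  constructor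
  · intro h
    refine hp.dense Q n hQ fun y' hy' => ?_
    obtain ⟨D', γ', hγ', hne'⟩ := hp.exists_rep hy'
    rw [hγ'.vanishes_iff hy' hne' hQ]
    obtain ⟨j, hj⟩ : ∃ j, eval y₀.rep (γ j) ≠ 0 := by
      by_contra hcon
      push Not at hcon
      exact hne (funext hcon)
    have hjP : γ j ∉ P' := fun h1 => hj (hy₀.1 _ h1 D (hγ.hom j))
    have hmem : γ j ^ n * aeval γ' Q ∈ P' := by
      refine mem_of_open hP' hG' hnon (((hγ.hom j).pow n).mul (aeval_homog hγ'.hom hQ)) fun y hy => ?_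
      have h3 : eval y.rep (aeval γ Q) = 0 := hy.1 _ h _ (aeval_homog hγ.hom hQ)
      unfold VanishesAt
      rw [map_mul, map_pow, Pool.Agent.H7.Bir.eval_comp, ← eval_smul hQ]
      have h4 : eval y.rep (γ j) • vals γ' y.rep = eval y.rep (γ' j) • vals γ y.rep := by
        funext i
        have h5 := hγ.prop hγ' hy j i
        change eval y.rep (γ j) * eval y.rep (γ' i) = eval y.rep (γ' j) * eval y.rep (γ i)
        rw [h5, mul_comm]
      rw [h4, eval_smul hQ, ← Pool.Agent.H7.Bir.eval_comp, h3, mul_zero]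
    rcases Ideal.IsPrime.mem_or_mem inferInstance hmem with h1 | h1
    · exact absurd (Ideal.IsPrime.mem_of_pow_mem inferInstance n h1) hjP
    · exact hy'.1 _ h1 _ (aeval_homog hγ'.hom hQ)
  · intro h
    refine mem_of_open hP' hG' hnon (aeval_homog hγ.hom hQ) fun y hy => ?_
    have h2 : eval (p y).rep Q = 0 := (hp.maps y hy).1 Q h n hQ
    by_cases h1 : vals γ y.rep = 0
    · unfold VanishesAt
      rw [Pool.Agent.H7.Bir.eval_comp, h1]
      have h3 := eval_smul hQ 0 (p y).rep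
      rw [zero_smul, h2, mul_zero] at h3
      exact h3
    · exact (hγ.vanishes_iff hy h1 hQ).1 h2

end Pool.Agent.H7.Qup
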