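import Pool.Agent.H7.Qup.Bd
import Pool.Agent.H19OL.Norm

/-!
# Qup Rel: the equations of the coordinates of a point over its image
-/

set_option autoImplicit false

open MvPolynomial

noncomputable section

namespace Pool.Agent.H7.Qup

open Pool.Agent.H17 (PN VanishesAt vanishesAt_mk_iff)
open Pool.Agent.H17GT (coordFun functionField)
open Pool.Agent.H17LG.Variety (FunField ratio)
open Pool.Agent.H62.FC (Homog)
open Pool.Agent.H62.SA (locVar OnBd)
open Pool.Agent.H17R (gen gen_eq_zero_iff ratio_self coordFun_ne_zero_iff)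
open Pool.Agent.H7.Bir (aeval_comp aeval_div funIso exists_quot vals rmap mem_of_open)
open Pool.Agent.H19OL (alg_of_trdeg adjoin_self)

variable {N M : ℕ}

/-- The equation of the ratio `X i / X j` over the function field of the image. -/
theorem exists_eq_aux {P : Ideal (MvPolynomial (Fin (N + 1)) ℂ)} [P.IsPrime] {P' : Ideal (MvPolynomial (Fin (M + 1)) ℂ)}
    [P'.IsPrime] {k : ℕ} {z : Fin k → FunField P} (hz : IsTranscendenceBasis ℂ z) {z' : Fin k → FunField P'}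
    (hz' : IsTranscendenceBasis ℂ z') {D : ℕ} {γ : Fin (N + 1) → MvPolynomial (Fin (M + 1)) ℂ} (hγ : ∀ i, (γ i).IsHomogeneous D)
    (hmaps : ∀ n Q, Q.IsHomogeneous n → (aeval γ Q ∈ P' ↔ Q ∈ P)) {i₀ : Fin (N + 1)} (hi₀ : X i₀ ∉ P)
    {j : Fin (M + 1)} (hj : X j ∉ P') (i : Fin (M + 1)) :
    ∃ (m D₁ : ℕ) (α : Fin (m + 1) → MvPolynomial (Fin (N + 1)) ℂ), (∀ l, (α l).IsHomogeneous D₁) ∧ α (Fin.last m) ∉ P ∧
      ∑ l : Fin (m + 1), aeval γ (α l) * X i ^ (l : ℕ) * X j ^ (m - (l : ℕ)) ∈ P' := by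
  have hcj : coordFun P' j ≠ 0 := coordFun_ne_zero_iff.2 hj
  set η : Fin (M + 1) → FunField P' := fun i => ratio P' i j with hη
  have hη1 : η j = 1 := ratio_self hcj
  have hγ₀ : γ i₀ ∉ P' := by
    intro h
    apply hi₀
    rw [← hmaps 1 _ (isHomogeneous_X ℂ i₀), aeval_X]
    exact h
  have hc : aeval η (γ i₀) ≠ 0 := fun h0 => hγ₀ ((gen_eq_zero_iff hcj (hγ i₀)).1 h0)
  set x : Fin (N + 1) → FunField P' := fun i => aeval η (γ i) / aeval η (γ i₀) with hx
  have hx1 : x i₀ = 1 := div_self hc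
  have hcomp : ∀ (n : ℕ) (R : MvPolynomial (Fin (N + 1)) ℂ), R.IsHomogeneous n →
      aeval η (aeval γ R) = aeval η (γ i₀) ^ n * aeval x R := by
    intro n R hR
    rw [aeval_comp, aeval_div hR hc]
  have hker : ∀ (n : ℕ) (G : MvPolynomial (Fin (N + 1)) ℂ), G.IsHomogeneous n → (aeval x G = 0 ↔ G ∈ P) := by
    intro n G hG
    rw [← hmaps n G hG, ← gen_eq_zero_iff hcj (hG.aeval γ hγ)]
    change _ ↔ aeval η (aeval γ G) = 0
    rw [hcomp n G hG, mul_eq_zero]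
    exact ⟨Or.inr, fun h => h.resolve_left (pow_ne_zero _ hc)⟩
  -- the subfield generated by the coordinates of the image
  set F : IntermediateField ℂ (FunField P') := IntermediateField.adjoin ℂ (Set.range x) with hF
  set x' : Fin (N + 1) → F := fun i => ⟨x i, IntermediateField.subset_adjoin ℂ _ ⟨i, rfl⟩⟩ with hx'
  have hadj : IntermediateField.adjoin ℂ (Set.range x') = ⊤ := adjoin_self x
  have hval : ∀ G : MvPolynomial (Fin (N + 1)) ℂ, ((aeval x' G : F) : FunField P') = aeval x G := by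
    intro G
    have h1 := DFunLike.congr_fun (MvPolynomial.comp_aeval x' F.val) G
    exact h1
  have hx'1 : x' i₀ = 1 := Subtype.ext hx1
  obtain ⟨e⟩ := funIso (coordFun_ne_zero_iff.2 hi₀) hx'1 hadj fun n G hG => by
    rw [← hker n G hG, ← hval G]
    exact Subtype.ext_iff
  have halg : Algebra.IsAlgebraic F (FunField P') := alg_of_trdeg (e.isTranscendenceBasis hz) hz'
  -- the equation
  set s : FunField P' := η i with hs
  have hint : IsIntegral F s := (halg.isAlgebraic s).isIntegral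
  set p := minpoly F s with hp
  set m := p.natDegree with hm
  obtain ⟨D₁, α, hα, hα0, hα1⟩ := exists_quot hx'1 hadj (fun i : Fin (m + 1) => p.coeff (i : ℕ)) (j' := Fin.last m) (by
    have h1 := minpoly.monic hint
    exact h1)
  have hα0' : aeval x (α (Fin.last m)) ≠ 0 := by
    rw [← hval]
    exact fun h => hα0 (Subtype.ext h)
  have hrel : ∑ i : Fin (m + 1), aeval x (α i) * s ^ (i : ℕ) = 0 := by
    have h1 := minpoly.aeval F s
    rw [Polynomial.aeval_eq_sum_range, ← Fin.sum_univ_eq_sum_range (fun i => p.coeff i • s ^ i)] at h1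
    have h2 : ∀ i : Fin (m + 1), aeval x (α i) * s ^ (i : ℕ) = aeval x (α (Fin.last m)) * (p.coeff (i : ℕ) • s ^ (i : ℕ)) := by
      intro i
      have h3 := congrArg (fun t : F => (t : FunField P')) (hα1 i)
      simp only [MulMemClass.coe_mul, hval] at h3
      rw [← h3, Algebra.smul_def]
      change _ = _ * (((p.coeff (i : ℕ) : F) : FunField P') * _)
      ring
    have h4 : ∑ i : Fin (m + 1), aeval x (α (Fin.last m)) * (p.coeff (i : ℕ) • s ^ (i : ℕ)) =
        aeval x (α (Fin.last m)) * ∑ i : Fin (m + 1), p.coeff (i : ℕ) • s ^ (i : ℕ) := (Finset.mul_sum _ _ _).symm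
    rw [Finset.sum_congr rfl fun i _ => h2 i, h4, h1, mul_zero]
  refine ⟨m, D₁, α, hα, fun h => hα0' ((hker D₁ _ (hα _)).2 h), ?_⟩
  -- the form
  set G : MvPolynomial (Fin (M + 1)) ℂ := ∑ l : Fin (m + 1), aeval γ (α l) * X i ^ (l : ℕ) * X j ^ (m - (l : ℕ)) with hG
  have hGhom : G.IsHomogeneous (D * D₁ + m) := by
    refine IsHomogeneous.sum _ _ _ fun l _ => ?_
    have h1 := ((((hα l).aeval γ hγ).mul ((isHomogeneous_X ℂ i).pow (l : ℕ))).mul ((isHomogeneous_X ℂ j).pow (m - l)))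
    have h2 : D * D₁ + 1 * (l : ℕ) + 1 * (m - l) = D * D₁ + m := by
      have h3 : (l : ℕ) ≤ m := Nat.lt_succ_iff.1 l.2
      omega
    rw [h2] at h1
    exact h1
  rw [← gen_eq_zero_iff hcj hGhom]
  change aeval η G = 0
  rw [hG, map_sum]
  have h1 : ∀ l : Fin (m + 1), aeval η (aeval γ (α l) * X i ^ (l : ℕ) * X j ^ (m - (l : ℕ))) =
      aeval η (γ i₀) ^ D₁ * (aeval x (α l) * s ^ (l : ℕ)) := by
    intro l
    rw [map_mul, map_mul, map_pow, map_pow, aeval_X, aeval_X, hη1, one_pow, mul_one, hcomp D₁ _ (hα l)]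
    ring
  have h2 : ∑ l : Fin (m + 1), aeval η (γ i₀) ^ D₁ * (aeval x (α l) * s ^ (l : ℕ)) =
      aeval η (γ i₀) ^ D₁ * ∑ l : Fin (m + 1), aeval x (α l) * s ^ (l : ℕ) := (Finset.mul_sum _ _ _).symm
  rw [Finset.sum_congr rfl fun l _ => h1 l, h2, hrel, mul_zero]

variable {P : Ideal (MvPolynomial (Fin (N + 1)) ℂ)} {P' : Ideal (MvPolynomial (Fin (M + 1)) ℂ)} {s s' : ℕ}
  {G : Fin s → MvPolynomial (Fin (N + 1)) ℂ} {G' : Fin s' → MvPolynomial (Fin (M + 1)) ℂ} {p : PN M → PN N}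

/-- **The equation of the coordinate `i`**: it holds at all points of `U'`. -/
theorem exists_eq [P.IsPrime] [P'.IsPrime] (hp : IsDominantMap P P' G G' p) (hP' : Homog P')
    (hG' : ∀ m, ∃ n, (G' m).IsHomogeneous n) (hne : (locVar P' G').Nonempty) {k : ℕ} {z : Fin k → FunField P}
    (hz : IsTranscendenceBasis ℂ z) {z' : Fin k → FunField P'} (hz' : IsTranscendenceBasis ℂ z') {j : Fin (M + 1)} (hj : X j ∉ P')
    (i : Fin (M + 1)) :
    ∃ (m D₁ : ℕ) (α : Fin (m + 1) → MvPolynomial (Fin (N + 1)) ℂ), (∀ l, (α l).IsHomogeneous D₁) ∧ α (Fin.last m) ∉ P ∧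
      ∀ (y : Fin (M + 1) → ℂ) (hy : y ≠ 0) (x : Fin (N + 1) → ℂ) (hx : x ≠ 0), Projectivization.mk ℂ y hy ∈ locVar P' G' →
        p (Projectivization.mk ℂ y hy) = Projectivization.mk ℂ x hx →
        ∑ l : Fin (m + 1), eval x (α l) * y i ^ (l : ℕ) * y j ^ (m - (l : ℕ)) = 0 := by
  obtain ⟨y₀, hy₀⟩ := hne
  have hne : (locVar P' G').Nonempty := ⟨y₀, hy₀⟩
  obtain ⟨i₁, hi₁⟩ := exists_coord (hp.maps y₀ hy₀)
  obtain ⟨D, γ, hγ, hv⟩ := hp.exists_rep hy₀
  have hmaps := hp.maps_iff hP' hG' hγ ⟨y₀, hy₀, hv⟩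
  obtain ⟨m, D₁, α, hα, hαP, hrel⟩ := exists_eq_aux hz hz' hγ.hom hmaps hi₁ hj i
  refine ⟨m, D₁, α, hα, hαP, fun y hy x hx hyU hyx => ?_⟩
  obtain ⟨D', γ', hγ', hv'⟩ := hp.exists_rep hyU
  obtain ⟨k₀, hk₀⟩ : ∃ k, eval y₀.rep (γ k) ≠ 0 := by
    by_contra hcon
    push Not at hcon
    exact hv (funext hcon)
  have hkP : γ k₀ ∉ P' := fun h1 => hk₀ (hy₀.1 _ h1 D (hγ.hom k₀))
  -- the same equation with the forms `γ'`
  have hGhom : (∑ l : Fin (m + 1), aeval γ' (α l) * X i ^ (l : ℕ) * X j ^ (m - (l : ℕ)) : MvPolynomial (Fin (M + 1)) ℂ).IsHomogeneous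
      (D' * D₁ + m) := by
    refine IsHomogeneous.sum _ _ _ fun l _ => ?_
    have h1 := ((((hα l).aeval γ' hγ'.hom).mul ((isHomogeneous_X ℂ i).pow (l : ℕ))).mul ((isHomogeneous_X ℂ j).pow (m - l)))
    have h2 : D' * D₁ + 1 * (l : ℕ) + 1 * (m - l) = D' * D₁ + m := by
      have h3 : (l : ℕ) ≤ m := Nat.lt_succ_iff.1 l.2
      omega
    rw [h2] at h1
    exact h1
  have hmem : γ k₀ ^ D₁ * (∑ l : Fin (m + 1), aeval γ' (α l) * X i ^ (l : ℕ) * X j ^ (m - (l : ℕ))) ∈ P' := by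
    refine mem_of_open hP' hG' hne (((hγ.hom k₀).pow D₁).mul hGhom) fun w hw => ?_
    unfold VanishesAt
    rw [map_mul, map_pow, map_sum, Finset.mul_sum]
    have h4 : eval w.rep (γ k₀) • vals γ' w.rep = eval w.rep (γ' k₀) • vals γ w.rep := by
      funext i
      have h5 := hγ.prop hγ' hw k₀ i
      change eval w.rep (γ k₀) * eval w.rep (γ' i) = eval w.rep (γ' k₀) * eval w.rep (γ i)
      rw [h5, mul_comm]
    have h5 : ∀ l : Fin (m + 1), eval w.rep (γ k₀) ^ D₁ * eval w.rep (aeval γ' (α l) * X i ^ (l : ℕ) * X j ^ (m - (l : ℕ))) =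
        eval w.rep (γ' k₀) ^ D₁ * eval w.rep (aeval γ (α l) * X i ^ (l : ℕ) * X j ^ (m - (l : ℕ))) := by
      intro l
      have h6 : eval w.rep (γ k₀) ^ D₁ * eval w.rep (aeval γ' (α l)) = eval w.rep (γ' k₀) ^ D₁ * eval w.rep (aeval γ (α l)) := by
        rw [Pool.Agent.H7.Bir.eval_comp, Pool.Agent.H7.Bir.eval_comp, ← eval_smul (hα l), ← eval_smul (hα l), h4]
      rw [map_mul, map_mul, map_mul, map_mul]
      linear_combination (eval w.rep (X i ^ (l : ℕ)) * eval w.rep (X j ^ (m - (l : ℕ)))) * h6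
    rw [Finset.sum_congr rfl fun l _ => h5 l, ← Finset.mul_sum, ← map_sum]
    have h6 : eval w.rep (∑ l : Fin (m + 1), aeval γ (α l) * X i ^ (l : ℕ) * X j ^ (m - (l : ℕ))) = 0 := by
      have hGhom' : (∑ l : Fin (m + 1), aeval γ (α l) * X i ^ (l : ℕ) * X j ^ (m - (l : ℕ)) : MvPolynomial (Fin (M + 1)) ℂ).IsHomogeneous
          (D * D₁ + m) := by
        refine IsHomogeneous.sum _ _ _ fun l _ => ?_
        have h1 := ((((hα l).aeval γ hγ.hom).mul ((isHomogeneous_X ℂ i).pow (l : ℕ))).mul ((isHomogeneous_X ℂ j).pow (m - l)))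
        have h2 : D * D₁ + 1 * (l : ℕ) + 1 * (m - l) = D * D₁ + m := by
          have h3 : (l : ℕ) ≤ m := Nat.lt_succ_iff.1 l.2
          omega
        rw [h2] at h1
        exact h1
      exact hw.1 _ hrel _ hGhom'
    rw [h6, mul_zero]
  have hmem' := (Ideal.IsPrime.mem_or_mem inferInstance hmem).resolve_left fun h1 => hkP (Ideal.IsPrime.mem_of_pow_mem inferInstance D₁ h1)
  have h1 : VanishesAt _ (Projectivization.mk ℂ y hy) := hyU.1 _ hmem' _ hGhom
  rw [vanishesAt_mk_iff hGhom, map_sum] at h1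
  -- the coordinates of the image
  obtain ⟨a, ha⟩ := Projectivization.exists_smul_eq_mk_rep ℂ y hy
  have h2 : (Projectivization.mk ℂ y hy).rep = (a : ℂ) • y := ha.symm
  have hvy : vals γ' y ≠ 0 := by
    intro h0
    apply hv'
    rw [h2, Pool.Agent.H7.Bir.vals_smul hγ'.hom, h0, smul_zero]
  have h3 := hγ'.rep _ hyU hv'
  rw [hyx, Pool.Agent.H7.Bir.rmap_mk hγ'.hom hy hvy, Projectivization.mk_eq_mk_iff'] at h3
  obtain ⟨b, hb⟩ := h3
  have h4 : ∀ l : Fin (m + 1), eval x (α l) * y i ^ (l : ℕ) * y j ^ (m - (l : ℕ)) =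
      b ^ D₁ * eval y (aeval γ' (α l) * X i ^ (l : ℕ) * X j ^ (m - (l : ℕ))) := by
    intro l
    rw [map_mul, map_mul, map_pow, map_pow, eval_X, eval_X, Pool.Agent.H7.Bir.eval_comp, ← hb, eval_smul (hα l)]
    ring
  rw [Finset.sum_congr rfl fun l _ => h4 l, ← Finset.mul_sum, h1, mul_zero]

end Pool.Agent.H7.Qup
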