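import Pool.Agent.H7.Qup.An
import Pool.Agent.H13.CV.Strong
import Pool.Agent.H17EF.Four

/-!
# Qup Main: the properties of the conjecture go up along dominant regular maps of quasi-projective surfaces

`open_dominant`: let `p : U' → U` be a dominant regular map of quasi-projective surfaces.  If `U` has the four properties then so has `U'`.
-/

set_option autoImplicit false

open Topology Filter MvPolynomial

noncomputable section

namespace Pool.Agent.H7.Qup

open Pool.Agent.H17 (PN VanishesAt HolomorphicInto puncturedDisc vanishesAt_mk_iff ZariskiClosedIn)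
open Pool.Agent.H17LG.Variety (FunField IsLogGeneralType)
open Pool.Agent.H62.FC (Homog)
open Pool.Agent.H62.SA (locVar OnBd)
open Pool.Agent.H17EF (projVar)
open Pool.Agent.H7.Bir (GGLOpen mem_of_open vals rmap pn_identity punctured_open)

variable {N M : ℕ} {P : Ideal (MvPolynomial (Fin (N + 1)) ℂ)} {P' : Ideal (MvPolynomial (Fin (M + 1)) ℂ)} {s s' : ℕ}
  {G : Fin s → MvPolynomial (Fin (N + 1)) ℂ} {G' : Fin s' → MvPolynomial (Fin (M + 1)) ℂ} {p : PN M → PN N}

theorem IsDominantMap.nonempty [P.IsPrime] (hp : IsDominantMap P P' G G' p) : (locVar P' G').Nonempty := by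
  by_contra hcon
  rw [Set.not_nonempty_iff_eq_empty] at hcon
  refine (Ideal.ne_top_iff_one P).1 (Ideal.IsPrime.ne_top inferInstance) (hp.dense 1 0 (isHomogeneous_one _ _) fun y hy => ?_)
  rw [hcon] at hy
  exact absurd hy (Set.notMem_empty y)

/-- **Dominant regular maps of quasi-projective surfaces.** -/
theorem open_dominant {P : Ideal (MvPolynomial (Fin (N + 1)) ℂ)} [P.IsPrime] {P' : Ideal (MvPolynomial (Fin (M + 1)) ℂ)} [P'.IsPrime]
    (hP' : Homog P') (hz : ∃ z : Fin 2 → FunField P, IsTranscendenceBasis ℂ z)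
    (hz' : ∃ z' : Fin 2 → FunField P', IsTranscendenceBasis ℂ z') {s s' : ℕ}
    {G : Fin s → MvPolynomial (Fin (N + 1)) ℂ} {G' : Fin s' → MvPolynomial (Fin (M + 1)) ℂ} (hG : ∀ m, ∃ n, (G m).IsHomogeneous n)
    (hG' : ∀ m, ∃ n, (G' m).IsHomogeneous n) {p : PN M → PN N} (hp : IsDominantMap P P' G G' p) {Ξ : Set (PN N)}
    (h : GGLOpen P G Ξ) : ∃ Ξ' : Set (PN M), GGLOpen P' G' Ξ' := by
  have hne := hp.nonempty
  obtain ⟨y₀, hy₀⟩ := hne
  have hne : (locVar P' G').Nonempty := ⟨y₀, hy₀⟩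
  obtain ⟨z, hz1⟩ := hz
  obtain ⟨z', hz1'⟩ := hz'
  -- a form which vanishes on the exceptional set
  obtain ⟨S, hS, hΞS⟩ := h.closed
  obtain ⟨x₁, hx₁, R, hRS, hRx₁⟩ : ∃ x ∈ locVar P G, ∃ R ∈ S, ¬ VanishesAt R x := by
    by_contra hcon
    push Not at hcon
    apply h.proper
    rw [hΞS]
    ext y
    exact ⟨fun hy => hy.1, fun hy => ⟨hy, fun R hR => hcon y hy R hR⟩⟩
  obtain ⟨nR, hnR⟩ := hS R hRS
  have hRP : R ∉ P := fun h1 => hRx₁ (hx₁.1 R h1 nR hnR)
  have hRv : ∀ x ∈ Ξ, VanishesAt R x := by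
    intro x hx
    rw [hΞS] at hx
    exact hx.2 R hRS
  -- the equations of the coordinates
  obtain ⟨j, hj⟩ := exists_coord hy₀
  choose m D₁ α hα hαP hrel using exists_eq hp hP' hG' hne hz1 hz1' hj
  obtain ⟨D, γ, hγ, hv⟩ := hp.exists_rep hy₀
  have hmaps := hp.maps_iff hP' hG' hγ ⟨y₀, hy₀, hv⟩
  obtain ⟨k₀, hk₀⟩ : ∃ k, eval y₀.rep (γ k) ≠ 0 := by
    by_contra hcon
    push Not at hcon
    exact hv (funext hcon)
  have hkP : γ k₀ ∉ P' := fun h1 => hk₀ (hy₀.1 _ h1 D (hγ.hom k₀))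
  set B : MvPolynomial (Fin (N + 1)) ℂ := R * ∏ i, α i (Fin.last (m i)) with hB
  have hBhom : B.IsHomogeneous (nR + ∑ i, D₁ i) := hnR.mul (IsHomogeneous.prod _ _ _ fun i _ => hα i _)
  have hBP : B ∉ P := by
    intro h1
    rcases Ideal.IsPrime.mem_or_mem inferInstance h1 with h2 | h2
    · exact hRP h2
    · obtain ⟨i, -, h3⟩ := (Ideal.IsPrime.prod_mem_iff (p := P)).1 h2
      exact hαP i h3
  set T : MvPolynomial (Fin (M + 1)) ℂ := aeval γ B * γ k₀ * X j with hT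
  have hThom : T.IsHomogeneous (D * (nR + ∑ i, D₁ i) + D + 1) := ((aeval_homog hγ.hom hBhom).mul (hγ.hom k₀)).mul (isHomogeneous_X ℂ j)
  have hTP : T ∉ P' := by
    intro h1
    rcases Ideal.IsPrime.mem_or_mem inferInstance h1 with h2 | h2
    · rcases Ideal.IsPrime.mem_or_mem inferInstance h2 with h3 | h3
      · exact hBP ((hmaps _ B hBhom).1 h3)
      · exact hkP h3
    · exact hj h2
  -- points outside of the exceptional set
  have key : ∀ y ∈ locVar P' G', ¬ VanishesAt T y → y.rep j ≠ 0 ∧ ¬ VanishesAt R (p y) ∧ ∀ i, ¬ VanishesAt (α i (Fin.last (m i))) (p y) := by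
    intro y hy hTy
    unfold VanishesAt at hTy
    rw [hT, map_mul, map_mul, mul_eq_zero, mul_eq_zero, not_or, not_or, eval_X] at hTy
    obtain ⟨⟨h1, h2⟩, h3⟩ := hTy
    have h4 : vals γ y.rep ≠ 0 := fun h0 => h2 (congrFun h0 k₀)
    have h5 : ¬ VanishesAt B (p y) := by
      rw [hγ.vanishes_iff hy h4 hBhom]
      exact h1
    unfold VanishesAt at h5
    rw [hB, map_mul, mul_eq_zero, not_or, map_prod, Finset.prod_eq_zero_iff] at h5
    push Not at h5
    exact ⟨h3, h5.1, fun i => h5.2 i (Finset.mem_univ i)⟩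
  -- the exceptional set
  refine ⟨{x | x ∈ locVar P' G' ∧ VanishesAt T x}, ?_⟩
  have hclosed : ZariskiClosedIn (locVar P' G') {x | x ∈ locVar P' G' ∧ VanishesAt T x} := by
    refine ⟨{T}, fun R hR => ?_, ?_⟩
    · rw [Set.mem_singleton_iff.1 hR]
      exact ⟨_, hThom⟩
    · ext x
      constructor
      · rintro ⟨h1, h2⟩
        refine ⟨h1, fun R hR => ?_⟩
        rw [Set.mem_singleton_iff.1 hR]
        exact h2
      · rintro ⟨h1, h2⟩
        exact ⟨h1, h2 T rfl⟩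
  have hgt : IsLogGeneralType (K := FunField P') (k := 2) (OnBd P' G') :=
    logGT_up hp hP' hG hG' hne ⟨z, hz1⟩ ⟨z', hz1'⟩ (h.logGeneralType 2 (by norm_num) ⟨z, hz1⟩)
  have hbrody : ∀ f : ℂ → PN M, HolomorphicInto f Set.univ → (∀ z, f z ∈ locVar P' G') → (∃ z w, f z ≠ f w) →
      ∀ z, f z ∈ {x | x ∈ locVar P' G' ∧ VanishesAt T x} := by
    intro f hf hfU hfn z₀
    refine ⟨hfU z₀, ?_⟩
    by_contra hTz
    obtain ⟨h1, h2, h3⟩ := key _ (hfU z₀) hTz
    have hg : HolomorphicInto (fun z => p (f z)) Set.univ := holo_comp hp isOpen_univ hf fun z _ => hfU z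
    have hconst : ∀ z w, p (f z) = p (f w) := by
      by_contra hcon
      push Not at hcon
      exact h2 (hRv _ (h.brody _ hg (fun z => hp.maps _ (hfU z)) hcon z₀))
    obtain ⟨φ, hφ, he⟩ := hf z₀ (Set.mem_univ z₀)
    have hφj : φ z₀ j ≠ 0 := by
      obtain ⟨h7, h8⟩ := he.self_of_nhds
      obtain ⟨a, ha⟩ := Projectivization.exists_smul_eq_mk_rep ℂ (φ z₀) h7
      have h9 : (f z₀).rep = (a : ℂ) • φ z₀ := by rw [h8]; exact ha.symm
      rw [h9] at h1
      exact right_ne_zero_of_mul h1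
    have hnear : ∀ᶠ z in 𝓝 z₀, f z = (fun _ => f z₀) z := by
      refine const_near hrel hφ he (Eventually.of_forall hfU) hφj (p (f z₀)).rep_nonzero h3 (Eventually.of_forall fun z => ?_)
      rw [(p (f z₀)).mk_rep]
      exact hconst z z₀
    have hc : HolomorphicInto (fun _ : ℂ => f z₀) Set.univ := by
      intro z _
      exact ⟨fun _ => (f z₀).rep, analyticAt_const, Eventually.of_forall fun _ => ⟨(f z₀).rep_nonzero, (f z₀).mk_rep.symm⟩⟩
    have h4 := pn_identity isPreconnected_univ hf hc (Set.mem_univ z₀) hnear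
    obtain ⟨z, w, hzw⟩ := hfn
    exact hzw ((h4 z (Set.mem_univ z)).trans (h4 w (Set.mem_univ w)).symm)
  refine ⟨hclosed, ?_, ?_, ?_, hbrody, ?_⟩
  · intro heq
    apply hTP
    refine mem_of_open hP' hG' hne hThom fun x hx => ?_
    rw [← heq] at hx
    exact hx.2
  · intro w _ hw
    obtain rfl := Pool.Agent.H17EF.two_of_basis ⟨z', hz1'⟩ hw
    exact hgt
  · rintro f hf hfU ⟨z₀, hz₀, hfz₀⟩
    have hTz : ¬ VanishesAt T (f z₀) := fun h1 => hfz₀ ⟨hfU z₀ hz₀, h1⟩
    obtain ⟨h1, h2, h3⟩ := key _ (hfU z₀ hz₀) hTz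
    have hg : HolomorphicInto (fun z => p (f z)) puncturedDisc := holo_comp hp punctured_open hf hfU
    obtain ⟨ĝ, hĝ, hgg⟩ := h.picard _ hg (fun z hz => hp.maps _ (hfU z hz)) ⟨z₀, hz₀, fun h4 => h2 (hRv _ h4)⟩
    obtain ⟨ψ, hψ, hψg⟩ := hĝ 0 (Metric.mem_ball_self one_pos)
    refine extend_of_alg hrel hf hfU hψ ?_ fun i hi => ?_
    · filter_upwards [hψg, Metric.ball_mem_nhds (0 : ℂ) one_pos] with z h4 h5 h6
      obtain ⟨h7, h8⟩ := h4
      exact ⟨h7, by rw [← h8, hgg z ⟨h5, h6⟩]⟩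
    · apply h3 i
      have h4 := Pool.Agent.H36.BP.vanish_identity (convex_ball (0 : ℂ) 1).isPreconnected hĝ (S := {α i (Fin.last (m i))}) (by
        intro Q hQ
        rw [Set.mem_singleton_iff] at hQ
        subst hQ
        exact ⟨_, hα i _⟩) (Metric.mem_ball_self one_pos) (by
        filter_upwards [hi, hψg] with z h5 h6 Q hQ
        rw [Set.mem_singleton_iff] at hQ
        subst hQ
        obtain ⟨h7, h8⟩ := h6
        rw [h8, vanishesAt_mk_iff (hα i _)]
        exact h5) z₀ hz₀.1 _ rfl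
      rw [hgg z₀ hz₀] at h4
      exact h4
  · intro Q _ hQ hPQ hsub w hw hzw
    exact Pool.Agent.H13.CV.strongly_of_brodyL P' hP' ⟨z', hz1'⟩ hG' hclosed hgt hbrody Q hQ hPQ hsub w hw hzw

end Pool.Agent.H7.Qup
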