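import Pool.Agent.H7.Qup.Rel
import Pool.Agent.H62.Qe.Ext

/-!
# Qup An: holomorphic maps and dominant regular maps
-/

set_option autoImplicit false

open Topology Filter MvPolynomial

noncomputable section

namespace Pool.Agent.H7.Qup

open Pool.Agent.H17 (PN VanishesAt HolomorphicInto puncturedDisc vanishesAt_mk_iff)
open Pool.Agent.H62.FC (Homog)
open Pool.Agent.H62.SA (locVar)
open Pool.Agent.H7.Bir (vals rmap mem_of_open vals_smul rmap_mk pn_identity)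

variable {N M : ℕ} {P : Ideal (MvPolynomial (Fin (N + 1)) ℂ)} {P' : Ideal (MvPolynomial (Fin (M + 1)) ℂ)} {s s' : ℕ}
  {G : Fin s → MvPolynomial (Fin (N + 1)) ℂ} {G' : Fin s' → MvPolynomial (Fin (M + 1)) ℂ} {p : PN M → PN N}

theorem vals_rep_ne {D : ℕ} {γ : Fin (N + 1) → MvPolynomial (Fin (M + 1)) ℂ} (hγ : ∀ i, (γ i).IsHomogeneous D)
    {y : Fin (M + 1) → ℂ} (hy : y ≠ 0) : vals γ (Projectivization.mk ℂ y hy).rep ≠ 0 ↔ vals γ y ≠ 0 := by
  obtain ⟨a, ha⟩ := Projectivization.exists_smul_eq_mk_rep ℂ y hy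
  have h1 : (Projectivization.mk ℂ y hy).rep = (a : ℂ) • y := ha.symm
  rw [h1, vals_smul hγ, smul_ne_zero_iff]
  exact ⟨fun h => h.2, fun h => ⟨pow_ne_zero _ a.ne_zero, h⟩⟩

theorem Rep.map_mk {D : ℕ} {γ : Fin (N + 1) → MvPolynomial (Fin (M + 1)) ℂ} (h : Rep P' G' p D γ) {y : Fin (M + 1) → ℂ} (hy : y ≠ 0)
    (hU : Projectivization.mk ℂ y hy ∈ locVar P' G') (hv : vals γ y ≠ 0) :
    p (Projectivization.mk ℂ y hy) = Projectivization.mk ℂ (vals γ y) hv := by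
  rw [h.rep _ hU ((vals_rep_ne h.hom hy).2 hv), rmap_mk h.hom hy hv]

theorem analyticAt_vals {φ : ℂ → Fin (M + 1) → ℂ} {z : ℂ} (hφ : AnalyticAt ℂ φ z)
    (γ : Fin (N + 1) → MvPolynomial (Fin (M + 1)) ℂ) : AnalyticAt ℂ (fun w => vals γ (φ w)) z := by
  rw [analyticAt_pi_iff]
  intro i
  have h1 : AnalyticAt ℂ (fun w => MvPolynomial.aeval (φ w) (γ i)) z :=
    AnalyticAt.aeval_mvPolynomial (fun i => analyticAt_pi_iff.mp hφ i) (γ i)
  exact h1

/-- The composition of a holomorphic map into `U'` with the regular map. -/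
theorem holo_comp (hp : IsDominantMap P P' G G' p) {f : ℂ → PN M} {U : Set ℂ} (hUo : IsOpen U) (hf : HolomorphicInto f U)
    (hfU : ∀ z ∈ U, f z ∈ locVar P' G') : HolomorphicInto (fun z => p (f z)) U := by
  intro z hz
  obtain ⟨φ, hφ, he⟩ := hf z hz
  obtain ⟨D, γ, hγ, hv⟩ := hp.exists_rep (hfU z hz)
  obtain ⟨h1, h2⟩ := he.self_of_nhds
  rw [h2, vals_rep_ne hγ.hom h1] at hv
  have h3 := analyticAt_vals hφ γ
  refine ⟨fun w => vals γ (φ w), h3, ?_⟩
  filter_upwards [he, hUo.mem_nhds hz, h3.continuousAt.eventually_ne hv] with w h4 h5 h6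
  obtain ⟨h7, h8⟩ := h4
  refine ⟨h6, ?_⟩
  have h9 := hfU w h5
  rw [h8] at h9 ⊢
  exact hγ.map_mk h7 h9 h6

/-- A continuous function with values in the roots of a polynomial. -/
theorem const_of_root {m : ℕ} {b : Fin (m + 1) → ℂ} (hb : b (Fin.last m) ≠ 0) {ρ : ℂ → ℂ} {z₀ : ℂ} {r : ℝ}
    (hρ : ContinuousOn ρ (Metric.ball z₀ r)) (h : ∀ z ∈ Metric.ball z₀ r, ∑ l : Fin (m + 1), b l * ρ z ^ (l : ℕ) = 0) :
    ∀ z ∈ Metric.ball z₀ r, ρ z = ρ z₀ := by
  intro z hz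
  have hr : 0 < r := Metric.pos_of_mem_ball hz
  set q : Polynomial ℂ := ∑ l : Fin (m + 1), Polynomial.C (b l) * Polynomial.X ^ (l : ℕ) with hq
  have hq0 : q ≠ 0 := by
    intro h0
    have h1 : q.coeff m = b (Fin.last m) := by
      rw [hq, Polynomial.finsetSum_coeff, Finset.sum_eq_single (Fin.last m)]
      · rw [Polynomial.coeff_C_mul, Polynomial.coeff_X_pow, Fin.val_last, if_pos rfl, mul_one]
      · intro l _ hl
        rw [Polynomial.coeff_C_mul, Polynomial.coeff_X_pow, if_neg, mul_zero]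
        intro h2
        exact hl (Fin.ext (by rw [Fin.val_last]; exact h2.symm))
      · exact fun h2 => absurd (Finset.mem_univ _) h2
    rw [h0, Polynomial.coeff_zero] at h1
    exact hb h1.symm
  have hmaps : Set.MapsTo ρ (Metric.ball z₀ r) (q.roots.toFinset : Set ℂ) := by
    intro w hw
    rw [Finset.mem_coe, Multiset.mem_toFinset, Polynomial.mem_roots hq0, Polynomial.IsRoot.def, hq, Polynomial.eval_finsetSum]
    rw [← h w hw]
    refine Finset.sum_congr rfl fun l _ => ?_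
    rw [Polynomial.eval_mul, Polynomial.eval_C, Polynomial.eval_pow, Polynomial.eval_X]
  exact (convex_ball z₀ r).isPreconnected.constant_of_mapsTo (Finset.finite_toSet _).isDiscrete hρ hmaps hz (Metric.mem_ball_self hr)

/-- If `p ∘ f` is constant near a point then so is `f`. -/
theorem const_near {j : Fin (M + 1)} {m : Fin (M + 1) → ℕ} {α : ∀ i, Fin (m i + 1) → MvPolynomial (Fin (N + 1)) ℂ}
    (hrel : ∀ i (y : Fin (M + 1) → ℂ) (hy : y ≠ 0) (x : Fin (N + 1) → ℂ) (hx : x ≠ 0), Projectivization.mk ℂ y hy ∈ locVar P' G' →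
        p (Projectivization.mk ℂ y hy) = Projectivization.mk ℂ x hx →
        ∑ l : Fin (m i + 1), eval x (α i l) * y i ^ (l : ℕ) * y j ^ (m i - (l : ℕ)) = 0)
    {f : ℂ → PN M} {z₀ : ℂ} {φ : ℂ → Fin (M + 1) → ℂ} (hφ : AnalyticAt ℂ φ z₀)
    (he : ∀ᶠ z in 𝓝 z₀, ∃ h : φ z ≠ 0, f z = Projectivization.mk ℂ (φ z) h) (hfU : ∀ᶠ z in 𝓝 z₀, f z ∈ locVar P' G')
    (hj : φ z₀ j ≠ 0) {x : Fin (N + 1) → ℂ} (hx : x ≠ 0) (hα : ∀ i, eval x (α i (Fin.last (m i))) ≠ 0)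
    (hpf : ∀ᶠ z in 𝓝 z₀, p (f z) = Projectivization.mk ℂ x hx) : ∀ᶠ z in 𝓝 z₀, f z = f z₀ := by
  have hcj : ContinuousAt (fun z => φ z j) z₀ := (continuous_apply j).continuousAt.comp hφ.continuousAt
  obtain ⟨r, hr, hball⟩ := Metric.eventually_nhds_iff_ball.1
    ((((he.and hfU).and hpf).and (hcj.eventually_ne hj)).and hφ.eventually_analyticAt)
  have hz₀ : z₀ ∈ Metric.ball z₀ r := Metric.mem_ball_self hr
  have hconst : ∀ i, ∀ z ∈ Metric.ball z₀ r, φ z i / φ z j = φ z₀ i / φ z₀ j := by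
    intro i
    refine const_of_root (b := fun l => eval x (α i l)) (hα i) (ρ := fun z => φ z i / φ z j) (fun z hz => ?_) fun z hz => ?_
    · have h1 := (hball z hz).2.continuousAt
      exact (((continuous_apply i).continuousAt.comp h1).div ((continuous_apply j).continuousAt.comp h1) (hball z hz).1.2).continuousWithinAt
    · obtain ⟨⟨⟨⟨h1, h2⟩, h3⟩, h4⟩, -⟩ := hball z hz
      obtain ⟨h5, h6⟩ := h1
      rw [h6] at h2 h3
      have h7 := hrel i (φ z) h5 x hx h2 h3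
      have h8 : ∀ l : Fin (m i + 1), eval x (α i l) * φ z i ^ (l : ℕ) * φ z j ^ (m i - (l : ℕ)) =
          φ z j ^ m i * (eval x (α i l) * (φ z i / φ z j) ^ (l : ℕ)) := by
        intro l
        have h9 : (l : ℕ) ≤ m i := Nat.lt_succ_iff.1 l.2
        have h10 : φ z j ^ m i = φ z j ^ (l : ℕ) * φ z j ^ (m i - (l : ℕ)) := by
          rw [← pow_add, Nat.add_sub_cancel' h9]
        rw [h10, div_pow]
        field_simp
      rw [Finset.sum_congr rfl fun l _ => h8 l, ← Finset.mul_sum, mul_eq_zero] at h7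
      exact h7.resolve_left (pow_ne_zero _ h4)
  filter_upwards [Metric.ball_mem_nhds z₀ hr] with z hz
  obtain ⟨⟨⟨⟨⟨h5, h6⟩, h2⟩, h3⟩, h4⟩, -⟩ := hball z hz
  obtain ⟨⟨⟨⟨⟨h5', h6'⟩, h2'⟩, h3'⟩, h4'⟩, -⟩ := hball z₀ hz₀
  rw [h6, h6', Projectivization.mk_eq_mk_iff']
  refine ⟨φ z j / φ z₀ j, ?_⟩
  funext i
  have h7 := hconst i z hz
  change φ z j / φ z₀ j * φ z₀ i = φ z i
  rw [div_eq_div_iff h4 h4'] at h7
  field_simp
  linear_combination -h7

/-- The bound of a root. -/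
theorem root_bound {m : ℕ} {b : Fin (m + 1) → ℂ} {C : ℝ} (hb : ∀ l, ‖b l‖ ≤ C) {ρ : ℂ}
    (h : ∑ l : Fin (m + 1), b l * ρ ^ (l : ℕ) = 0) : ‖b (Fin.last m) * ρ‖ ≤ C * (m + 1) := by
  have hC : 0 ≤ C := (norm_nonneg _).trans (hb 0)
  have hm : (0 : ℝ) ≤ m := Nat.cast_nonneg m
  rcases le_or_gt ‖ρ‖ 1 with h1 | h1
  · rw [norm_mul]
    calc ‖b (Fin.last m)‖ * ‖ρ‖ ≤ C * 1 := mul_le_mul (hb _) h1 (norm_nonneg _) hC
      _ ≤ C * (m + 1) := mul_le_mul_of_nonneg_left (by linarith) hC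
  · have hρ : 0 < ‖ρ‖ := zero_lt_one.trans h1
    rcases Nat.eq_zero_or_pos m with rfl | hmp
    · rw [Fin.sum_univ_one, Fin.val_zero, pow_zero, mul_one] at h
      have h2 : b (Fin.last 0) = 0 := h
      rw [h2, zero_mul, norm_zero]
      exact mul_nonneg hC (by linarith)
    · rw [Fin.sum_univ_castSucc, Fin.val_last, add_comm] at h
      have h2 : b (Fin.last m) * ρ ^ m = -∑ l : Fin m, b l.castSucc * ρ ^ ((l.castSucc : Fin (m + 1)) : ℕ) := eq_neg_of_add_eq_zero_left h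
      have h3 : ‖b (Fin.last m) * ρ ^ m‖ ≤ (C * m) * ‖ρ‖ ^ (m - 1) := by
        rw [h2, norm_neg]
        refine (norm_sum_le _ _).trans ?_
        have h4 : ∀ l : Fin m, ‖b l.castSucc * ρ ^ ((l.castSucc : Fin (m + 1)) : ℕ)‖ ≤ C * ‖ρ‖ ^ (m - 1) := by
          intro l
          rw [norm_mul, norm_pow]
          refine mul_le_mul (hb _) (pow_le_pow_right₀ h1.le ?_) (pow_nonneg hρ.le _) hC
          have := l.2
          rw [Fin.val_castSucc]
          omega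
        refine (Finset.sum_le_sum fun l _ => h4 l).trans ?_
        rw [Finset.sum_const, Finset.card_univ, Fintype.card_fin, nsmul_eq_mul]
        nlinarith
      have h5 : ‖b (Fin.last m) * ρ ^ m‖ = ‖b (Fin.last m) * ρ‖ * ‖ρ‖ ^ (m - 1) := by
        rw [norm_mul, norm_mul, norm_pow, mul_assoc, ← pow_succ', Nat.sub_add_cancel hmp]
      rw [h5] at h3
      have h6 := le_of_mul_le_mul_right h3 (pow_pos hρ _)
      refine h6.trans ?_
      nlinarith

/-- **Extension over the puncture.** -/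
theorem extend_of_alg {j : Fin (M + 1)} {m : Fin (M + 1) → ℕ} {α : ∀ i, Fin (m i + 1) → MvPolynomial (Fin (N + 1)) ℂ}
    (hrel : ∀ i (y : Fin (M + 1) → ℂ) (hy : y ≠ 0) (x : Fin (N + 1) → ℂ) (hx : x ≠ 0), Projectivization.mk ℂ y hy ∈ locVar P' G' →
        p (Projectivization.mk ℂ y hy) = Projectivization.mk ℂ x hx →
        ∑ l : Fin (m i + 1), eval x (α i l) * y i ^ (l : ℕ) * y j ^ (m i - (l : ℕ)) = 0)
    {f : ℂ → PN M} (hf : HolomorphicInto f puncturedDisc) (hfU : ∀ z ∈ puncturedDisc, f z ∈ locVar P' G')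
    {ψ : ℂ → Fin (N + 1) → ℂ} (hψ : AnalyticAt ℂ ψ 0)
    (hpf : ∀ᶠ z in 𝓝 (0 : ℂ), z ≠ 0 → ∃ h : ψ z ≠ 0, p (f z) = Projectivization.mk ℂ (ψ z) h)
    (hα : ∀ i, ¬ ∀ᶠ z in 𝓝 (0 : ℂ), eval (ψ z) (α i (Fin.last (m i))) = 0) :
    ∃ g : ℂ → PN M, HolomorphicInto g (Metric.ball 0 1) ∧ ∀ z ∈ puncturedDisc, g z = f z := by
  classical
  have han : ∀ Q : MvPolynomial (Fin (N + 1)) ℂ, AnalyticAt ℂ (fun z => eval (ψ z) Q) 0 := by
    intro Q
    have h1 : AnalyticAt ℂ (fun w => MvPolynomial.aeval (ψ w) Q) 0 :=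
      AnalyticAt.aeval_mvPolynomial (fun i => analyticAt_pi_iff.mp hψ i) Q
    exact h1
  set a : Fin (M + 1) → ℂ → ℂ := fun i z => eval (ψ z) (α i (Fin.last (m i))) with ha
  have hane : ∀ i, ∀ᶠ z in 𝓝[≠] (0 : ℂ), a i z ≠ 0 := by
    intro i
    exact (han _).eventually_eq_zero_or_eventually_ne_zero.resolve_left (hα i)
  -- bounds of the coefficients
  have hbd : ∀ i, ∃ C : ℝ, ∀ᶠ z in 𝓝 (0 : ℂ), ∀ l, ‖eval (ψ z) (α i l)‖ ≤ C := by
    intro i
    have h1 : ∀ l, ∃ C : ℝ, ∀ᶠ z in 𝓝 (0 : ℂ), ‖eval (ψ z) (α i l)‖ ≤ C := fun l =>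
      ⟨‖eval (ψ 0) (α i l)‖ + 1, ((han (α i l)).continuousAt.norm.eventually_lt continuousAt_const (lt_add_one _)).mono fun z hz => hz.le⟩
    choose C hC using h1
    refine ⟨∑ l, |C l|, ?_⟩
    filter_upwards [eventually_all.2 hC] with z hz l
    exact ((hz l).trans (le_abs_self _)).trans (Finset.single_le_sum (f := fun l => |C l|) (fun l _ => abs_nonneg _) (Finset.mem_univ l))
  choose C hC using hbd
  have hev : ∀ᶠ z in 𝓝[≠] (0 : ℂ), z ∈ puncturedDisc ∧ (∃ h : ψ z ≠ 0, p (f z) = Projectivization.mk ℂ (ψ z) h) ∧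
      (∀ i l, ‖eval (ψ z) (α i l)‖ ≤ C i) ∧ ∀ i, a i z ≠ 0 := by
    have h1 : ∀ᶠ z in 𝓝[≠] (0 : ℂ), z ∈ puncturedDisc := by
      have h4 : Metric.ball (0 : ℂ) 1 \ {0} ∈ 𝓝[≠] (0 : ℂ) := sdiff_mem_nhdsWithin_compl (Metric.ball_mem_nhds _ one_pos) _
      exact h4
    have h2 : ∀ᶠ z in 𝓝[≠] (0 : ℂ), ∃ h : ψ z ≠ 0, p (f z) = Projectivization.mk ℂ (ψ z) h :=
      eventually_nhdsWithin_iff.2 (hpf.mono fun z hz h => hz h)
    filter_upwards [h1, h2, (eventually_all.2 hC).filter_mono nhdsWithin_le_nhds, eventually_all.2 hane] with z h3 h4 h5 h6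
    exact ⟨h3, h4, h5, h6⟩
  obtain ⟨r, hr, hball⟩ : ∃ r > 0, ∀ z ∈ Metric.ball (0 : ℂ) r \ {0}, z ∈ puncturedDisc ∧
      (∃ h : ψ z ≠ 0, p (f z) = Projectivization.mk ℂ (ψ z) h) ∧ (∀ i l, ‖eval (ψ z) (α i l)‖ ≤ C i) ∧ ∀ i, a i z ≠ 0 := by
    obtain ⟨r, hr, h1⟩ := Metric.eventually_nhds_iff_ball.1 (eventually_nhdsWithin_iff.1 hev)
    exact ⟨r, hr, fun z hz => h1 z hz.1 hz.2⟩
  -- the coordinate `j` does not vanish
  have hj : ∀ z ∈ Metric.ball (0 : ℂ) r \ {0}, (f z).rep j ≠ 0 := by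
    intro z hz h0
    obtain ⟨h1, ⟨h2, h3⟩, -, h5⟩ := hball z hz
    apply (f z).rep_nonzero
    funext i
    have h6 := hrel i (f z).rep (f z).rep_nonzero (ψ z) h2 (by rw [(f z).mk_rep]; exact hfU z h1) (by rw [(f z).mk_rep]; exact h3)
    rw [Fin.sum_univ_castSucc] at h6
    have h7 : ∀ l : Fin (m i), eval (ψ z) (α i l.castSucc) * (f z).rep i ^ ((l.castSucc : Fin (m i + 1)) : ℕ) *
        (f z).rep j ^ (m i - ((l.castSucc : Fin (m i + 1)) : ℕ)) = 0 := by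
      intro l
      have h8 : m i - ((l.castSucc : Fin (m i + 1)) : ℕ) ≠ 0 := by
        have := l.2
        rw [Fin.val_castSucc]
        omega
      rw [h0, zero_pow h8, mul_zero]
    rw [Finset.sum_eq_zero fun l _ => h7 l, zero_add, Fin.val_last, Nat.sub_self, pow_zero, mul_one, mul_eq_zero] at h6
    exact eq_zero_of_pow_eq_zero (h6.resolve_left (h5 i))
  -- the normalized lift
  set S : ℂ → Fin (M + 1) → ℂ := fun w => ((f w).rep j)⁻¹ • (f w).rep with hS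
  have hSmk : ∀ (w : ℂ) (x : Fin (M + 1) → ℂ) (hx : x ≠ 0), f w = Projectivization.mk ℂ x hx → S w = (x j)⁻¹ • x := by
    intro w x hx h
    obtain ⟨a, ha⟩ := Projectivization.exists_smul_eq_mk_rep ℂ x hx
    have h1 : (f w).rep = (a : ℂ) • x := by rw [h]; exact ha.symm
    rw [hS]
    simp only [h1, Pi.smul_apply, smul_eq_mul]
    rw [smul_smul, mul_inv, mul_comm (a : ℂ)⁻¹, mul_assoc, inv_mul_cancel₀ a.ne_zero, mul_one]
  set A : ℂ → ℂ := fun z => ∏ i, a i z with hA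
  have hAan : AnalyticAt ℂ A 0 := by
    have h1 : AnalyticAt ℂ (fun z => ∏ i, a i z) 0 := Finset.analyticAt_fun_prod _ fun i _ => han _
    exact h1
  -- the function is bounded and holomorphic
  obtain ⟨r', hr', hr'r, haball⟩ : ∃ r' > 0, r' ≤ r ∧ ∀ z ∈ Metric.ball (0 : ℂ) r', AnalyticAt ℂ A z := by
    obtain ⟨ρ, hρ, h1⟩ := Metric.eventually_nhds_iff_ball.1 hAan.eventually_analyticAt
    exact ⟨min ρ r, lt_min hρ hr, min_le_right _ _, fun z hz => h1 z (Metric.ball_subset_ball (min_le_left _ _) hz)⟩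
  have hsub : ∀ z ∈ Metric.ball (0 : ℂ) r' \ {0}, z ∈ Metric.ball (0 : ℂ) r \ {0} := fun z hz =>
    ⟨Metric.ball_subset_ball hr'r hz.1, hz.2⟩
  have hd : DifferentiableOn ℂ (fun z => A z • S z) (Metric.ball (0 : ℂ) r' \ {0}) := by
    intro w hw
    obtain ⟨φ, h4, h5⟩ := hf w (hball w (hsub w hw)).1
    have h6 : φ w j ≠ 0 := by
      obtain ⟨h7, h8⟩ := h5.self_of_nhds
      obtain ⟨a, ha⟩ := Projectivization.exists_smul_eq_mk_rep ℂ (φ w) h7
      have h9 : (f w).rep = (a : ℂ) • φ w := by rw [h8]; exact ha.symm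
      have h10 := hj w (hsub w hw)
      rw [h9] at h10
      exact right_ne_zero_of_mul h10
    have h7 : AnalyticAt ℂ (fun z => (φ z j)⁻¹ • φ z) w := by
      have h8 : AnalyticAt ℂ (fun z => φ z j) w := analyticAt_pi_iff.1 h4 j
      exact (h8.inv h6).smul h4
    have h8 : AnalyticAt ℂ (fun z => A z • ((φ z j)⁻¹ • φ z)) w := (haball w hw.1).smul h7
    refine DifferentiableAt.differentiableWithinAt (h8.differentiableAt.congr_of_eventuallyEq ?_)
    filter_upwards [h5] with z hz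
    obtain ⟨h8, h9⟩ := hz
    rw [hSmk z _ h8 h9]
  have hratio : ∀ z ∈ Metric.ball (0 : ℂ) r \ {0}, ∀ i, ‖a i z * S z i‖ ≤ C i * (m i + 1) := by
    intro z hz i
    obtain ⟨h1, ⟨h2, h3⟩, h4, h5⟩ := hball z hz
    have h6 := hrel i (f z).rep (f z).rep_nonzero (ψ z) h2 (by rw [(f z).mk_rep]; exact hfU z h1) (by rw [(f z).mk_rep]; exact h3)
    have hjz := hj z hz
    have h8 : ∀ l : Fin (m i + 1), eval (ψ z) (α i l) * (f z).rep i ^ (l : ℕ) * (f z).rep j ^ (m i - (l : ℕ)) =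
        (f z).rep j ^ m i * (eval (ψ z) (α i l) * (S z i) ^ (l : ℕ)) := by
      intro l
      have h9 : (l : ℕ) ≤ m i := Nat.lt_succ_iff.1 l.2
      have h10 : (f z).rep j ^ m i = (f z).rep j ^ (l : ℕ) * (f z).rep j ^ (m i - (l : ℕ)) := by
        rw [← pow_add, Nat.add_sub_cancel' h9]
      have h11 : S z i = (f z).rep i / (f z).rep j := by
        change ((f z).rep j)⁻¹ * (f z).rep i = _
        rw [div_eq_inv_mul]
      rw [h10, h11, div_pow]
      field_simp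
    rw [Finset.sum_congr rfl fun l _ => h8 l, ← Finset.mul_sum, mul_eq_zero] at h6
    exact root_bound (h4 i) (h6.resolve_left (pow_ne_zero _ hjz))
  have hb : BddAbove (norm ∘ (fun z => A z • S z) '' (Metric.ball (0 : ℂ) r' \ {0})) := by
    refine ⟨∑ i, (C i * (m i + 1)) * ∏ i' ∈ Finset.univ.erase i, C i', ?_⟩
    rintro _ ⟨w, hw, rfl⟩
    have hw' := hsub w hw
    obtain ⟨-, -, h4, -⟩ := hball w hw'
    have hC0 : ∀ i, 0 ≤ C i := fun i => (norm_nonneg _).trans (h4 i 0)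
    have hterm : ∀ i, 0 ≤ (C i * (m i + 1)) * ∏ i' ∈ Finset.univ.erase i, C i' := fun i =>
      mul_nonneg (mul_nonneg (hC0 i) (by positivity)) (Finset.prod_nonneg fun i' _ => hC0 i')
    change ‖A w • S w‖ ≤ _
    rw [pi_norm_le_iff_of_nonneg (Finset.sum_nonneg fun i _ => hterm i)]
    intro i
    refine le_trans ?_ (Finset.single_le_sum (f := fun i => (C i * (m i + 1)) * ∏ i' ∈ Finset.univ.erase i, C i')
      (fun i _ => hterm i) (Finset.mem_univ i))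
    change ‖A w * S w i‖ ≤ _
    have h5 : A w * S w i = (a i w * S w i) * ∏ i' ∈ Finset.univ.erase i, a i' w := by
      rw [hA]
      simp only
      rw [← Finset.mul_prod_erase Finset.univ (fun i => a i w) (Finset.mem_univ i)]
      ring
    rw [h5, norm_mul, norm_prod]
    refine mul_le_mul (hratio w hw' i) (Finset.prod_le_prod (fun i' _ => norm_nonneg _) fun i' _ => h4 i' _)
      (Finset.prod_nonneg fun i' _ => norm_nonneg _) (mul_nonneg (hC0 i) (by positivity))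
  have hu := Complex.differentiableOn_update_limUnder_of_bddAbove (Metric.ball_mem_nhds (0 : ℂ) hr') hd hb
  set S' : ℂ → Fin (M + 1) → ℂ := Function.update (fun z => A z • S z) 0 (limUnder (𝓝[≠] 0) fun z => A z • S z) with hS'
  have hS'a : AnalyticAt ℂ S' 0 := hu.analyticAt (Metric.ball_mem_nhds (0 : ℂ) hr')
  have hS'eq : ∀ w, w ≠ 0 → S' w = A w • S w := fun w hw => Function.update_of_ne hw _ _
  have hAne : ∀ z ∈ Metric.ball (0 : ℂ) r \ {0}, A z ≠ 0 := fun z hz => Finset.prod_ne_zero_iff.2 fun i _ => (hball z hz).2.2.2 i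
  have hSj : ∀ z ∈ Metric.ball (0 : ℂ) r \ {0}, S z j = 1 := fun z hz => inv_mul_cancel₀ (hj z hz)
  have hS'ne : ∀ z ∈ Metric.ball (0 : ℂ) r \ {0}, S' z ≠ 0 := by
    intro z hz h0
    have h1 := congrFun h0 j
    rw [hS'eq z hz.2] at h1
    change A z * S z j = 0 at h1
    rw [hSj z hz, mul_one] at h1
    exact hAne z hz h1
  have hnz : ¬ ∀ᶠ z in 𝓝 (0 : ℂ), S' z = 0 := by
    intro h0
    have h1 : ∀ᶠ z in 𝓝[≠] (0 : ℂ), z ∈ Metric.ball (0 : ℂ) r \ {0} :=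
      sdiff_mem_nhdsWithin_compl (Metric.ball_mem_nhds _ hr) _
    obtain ⟨z, h2, h3⟩ := ((h0.filter_mono nhdsWithin_le_nhds).and h1).exists
    exact hS'ne z h3 h2
  obtain ⟨n, Φ, hΦ, hΦ0, hΦe⟩ := (hS'a.exists_eventuallyEq_pow_smul_nonzero_iff).2 hnz
  refine Pool.Agent.H62.Qe.extend_of_pow hf le_rfl hΦ.continuousAt hΦ0 ?_
  filter_upwards [hΦe, Metric.ball_mem_nhds (0 : ℂ) hr] with z h1 h2 h3
  have h4 : z ∈ Metric.ball (0 : ℂ) r \ {0} := ⟨h2, h3⟩
  have h5 := hS'ne z h4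
  have h6 : Φ z ≠ 0 := by
    intro h7
    rw [h7, smul_zero] at h1
    exact h5 h1
  refine ⟨h6, ?_⟩
  rw [pow_one, ← (f z).mk_rep, Projectivization.mk_eq_mk_iff']
  rw [hS'eq z h3, sub_zero] at h1
  have h7 : A z ≠ 0 := hAne z h4
  have h8 : (f z).rep j ≠ 0 := hj z h4
  refine ⟨(f z).rep j * (A z)⁻¹ * z ^ n, ?_⟩
  rw [mul_smul, ← h1, smul_smul, mul_assoc, inv_mul_cancel₀ h7, mul_one]
  change (f z).rep j • (((f z).rep j)⁻¹ • (f z).rep) = _
  rw [smul_smul, mul_inv_cancel₀ h8, one_smul]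

end Pool.Agent.H7.Qup
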