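import Pool.Agent.H7.Qup.Defs
import Pool.Agent.H62.Qe.Defs

/-!
# Qup Bridge: finite etale coverings are dominant regular maps
-/

set_option autoImplicit false

open Topology Filter MvPolynomial

noncomputable section

namespace Pool.Agent.H7.Qup

open Pool.Agent.H17 (PN VanishesAt)
open Pool.Agent.H62.FC (Homog)
open Pool.Agent.H62.SA (locVar)
open Pool.Agent.H62.Qe (IsUnramifiedOver)
open Pool.Agent.H7.Bir (vals rmap mem_of_open)

variable {N M : ℕ}

theorem isDominantMap_of_isUnramifiedOver {P : Ideal (MvPolynomial (Fin (N + 1)) ℂ)} [P.IsPrime] (hP : Homog P)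
    {P' : Ideal (MvPolynomial (Fin (M + 1)) ℂ)} {s s' : ℕ}
    {G : Fin s → MvPolynomial (Fin (N + 1)) ℂ} {G' : Fin s' → MvPolynomial (Fin (M + 1)) ℂ} (hG : ∀ m, ∃ n, (G m).IsHomogeneous n)
    (hne : (locVar P G).Nonempty) {p : PN M → PN N} (hp : IsUnramifiedOver P P' G G' p) : IsDominantMap P P' G G' p := by
  refine ⟨fun y hy => (hp.inv y hy.1).2 hy, fun y hy => ?_, fun Q n hQ h => ?_⟩
  · obtain ⟨D, γ, hγ, hv, hrep, -⟩ := hp.regular y.rep y.rep_nonzero (by rw [y.mk_rep]; exact hy.1)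
    refine ⟨D, γ, hγ, hv, fun y' hy' hv' => ?_⟩
    have h1 := hrep y'.rep y'.rep_nonzero hv' (by rw [y'.mk_rep]; exact hy'.1)
    rw [y'.mk_rep] at h1
    rw [h1]
    unfold Pool.Agent.H7.Bir.rmap
    rw [dif_pos hv']
  · refine mem_of_open hP hG hne hQ fun x hx => ?_
    obtain ⟨y, hy, rfl⟩ := hp.surj x hx.1
    exact h y ((hp.inv y hy).1 hx)

end Pool.Agent.H7.Qup
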