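import Pool.Agent.H7.Qup.Defs
import Pool.Agent.H7.Qup.Log

/-!
# Qup Hom: the embedding of the function fields given by a dominant regular map
-/

set_option autoImplicit false

open MvPolynomial

noncomputable section

namespace Pool.Agent.H7.Qup

open Pool.Agent.H17 (PN VanishesAt)
open Pool.Agent.H17GT (coordFun)
open Pool.Agent.H17LG.Variety (FunField ratio)
open Pool.Agent.H62.FC (Homog)
open Pool.Agent.H17R (gen gen_eq_zero_iff ratio_self adjoin_ratio coordFun_ne_zero_iff)
open Pool.Agent.H7.Bir (exists_form aeval_comp aeval_div)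

variable {N M : ℕ}

/-- A homomorphism from a function field with given values at the coordinates. -/
theorem exists_hom_val {Q : Ideal (MvPolynomial (Fin (N + 1)) ℂ)} [Q.IsPrime] {j : Fin (N + 1)} (hj : coordFun Q j ≠ 0)
    {L : Type} [Field L] [Algebra ℂ L] {x : Fin (N + 1) → L} (hx : x j = 1)
    (h : ∀ (n : ℕ) (R : MvPolynomial (Fin (N + 1)) ℂ), R.IsHomogeneous n → (aeval x R = 0 ↔ R ∈ Q)) :
    ∃ e : FunField Q →ₐ[ℂ] L, ∀ i, e (ratio Q i j) = x i := by
  set ξ : Fin (N + 1) → FunField Q := fun i => ratio Q i j with hξ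
  have hker : ∀ R : MvPolynomial (Fin (N + 1)) ℂ, aeval ξ R = 0 ↔ aeval x R = 0 := by
    intro R
    obtain ⟨D, h1⟩ := exists_form j R
    obtain ⟨R', h2, h3⟩ := h1 D le_rfl
    rw [← h3 _ ξ (ratio_self hj), ← h3 _ x hx, h D R' h2]
    exact gen_eq_zero_iff hj h2
  set f : MvPolynomial (Fin (N + 1)) ℂ →ₐ[ℂ] (aeval ξ : MvPolynomial (Fin (N + 1)) ℂ →ₐ[ℂ] FunField Q).range :=
    (aeval ξ : MvPolynomial (Fin (N + 1)) ℂ →ₐ[ℂ] FunField Q).rangeRestrict with hf
  have hfs : Function.Surjective f := AlgHom.rangeRestrict_surjective _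
  have hfv : ∀ R, ((f R : (aeval ξ : MvPolynomial (Fin (N + 1)) ℂ →ₐ[ℂ] FunField Q).range) : FunField Q) = aeval ξ R := fun R => rfl
  have hle : RingHom.ker f.toRingHom ≤ RingHom.ker (aeval x : MvPolynomial (Fin (N + 1)) ℂ →ₐ[ℂ] L).toRingHom := by
    intro R hR
    have h1 : f R = 0 := hR
    have h2 : aeval ξ R = 0 := by
      rw [← hfv, h1]
      rfl
    exact (hker R).1 h2
  set g := AlgHom.liftOfSurjective f hfs (aeval x) hle with hg
  have hgv : ∀ R, g (f R) = aeval x R := fun R => AlgHom.liftOfSurjective_apply f hfs (aeval x) hle R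
  have hgi : Function.Injective g := by
    rw [injective_iff_map_eq_zero]
    intro a ha
    obtain ⟨R, rfl⟩ := hfs a
    rw [hgv] at ha
    exact Subtype.ext ((hker R).2 ha)
  have hfr : IsFractionRing (aeval ξ : MvPolynomial (Fin (N + 1)) ℂ →ₐ[ℂ] FunField Q).range (FunField Q) := by
    refine IsFractionRing.of_field _ _ fun z => ?_
    have hz : z ∈ IntermediateField.adjoin ℂ (Set.range ξ) := by
      rw [adjoin_ratio hj]
      trivial
    obtain ⟨r, s, hrs⟩ := (IntermediateField.mem_adjoin_range_iff ℂ ξ z).1 hz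
    exact ⟨f r, f s, hrs⟩
  refine ⟨IsFractionRing.liftAlgHom hgi, fun i => ?_⟩
  rw [IsFractionRing.liftAlgHom_apply]
  have h1 : ratio Q i j = algebraMap (aeval ξ : MvPolynomial (Fin (N + 1)) ℂ →ₐ[ℂ] FunField Q).range (FunField Q) (f (X i)) := by
    change _ = aeval ξ (X i)
    rw [aeval_X]
  rw [h1, IsFractionRing.lift_algebraMap]
  change g (f (X i)) = _
  rw [hgv, aeval_X]

end Pool.Agent.H7.Qup
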